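import Pool.Agent.helper84.FS.SpecF

/-!
# Row `fs:UNF` of Pool/Agent/helper84/FS/SpecF.lean: `1 - Π (1 - Ψ_k)`
-/

open scoped MatrixGroups ContDiff Topology UpperHalfPlane ComplexConjugate
open UpperHalfPlane MeasureTheory Filter Set

set_option autoImplicit false

namespace Pool.Agent.FS

open Pool.Agent.RS
open Pool.Agent.MS (bq BB BA SF pf)
open Pool.Agent.EN (XG MG mkX mkM fl pr)

theorem UNF_zero (Γ : Subgroup SL(2, ℝ)) : SF Γ (fun _ => (0 : ℝ)) (fun _ => 0) (fun _ => 0) (fun _ => 0) where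
  i0 := ⟨continuous_const, fun _ _ => rfl⟩
  ia := ⟨continuous_const, fun _ _ => rfl⟩
  i1 := ⟨continuous_const, fun _ _ => rfl⟩
  il := ⟨continuous_const, fun _ _ => rfl⟩
  da := by intro g; exact hasDerivAt_const _ _
  dn := by intro g; exact hasDerivAt_const _ _
  dl := by intro g; exact hasDerivAt_const _ _

theorem UNF_bd {F G P Q M B : ℝ} (hF : 0 ≤ F ∧ F ≤ 1) (hG : 0 ≤ G ∧ G ≤ 1) (hP : |P| ≤ M) (hQ : |Q| ≤ B) :
    |-(-P * G + F * -Q)| ≤ M + B := by
  have h1 : |P * G| ≤ M := by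
    rw [abs_mul, abs_of_nonneg hG.1]
    calc |P| * G ≤ |P| * 1 := mul_le_mul_of_nonneg_left hG.2 (abs_nonneg _)
      _ ≤ M := by linarith
  have h2 : |F * Q| ≤ B := by
    rw [abs_mul, abs_of_nonneg hF.1]
    calc F * |Q| ≤ 1 * |Q| := mul_le_mul_of_nonneg_right hF.2 (abs_nonneg _)
      _ ≤ B := by linarith
  have h3 : -(-P * G + F * -Q) = P * G + F * Q := by ring
  rw [h3]
  exact (abs_add_le _ _).trans (add_le_add h1 h2)

theorem UNF_proof (hSFP : IR.SFP_stmt) : UNF_stmt := by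
  intro Γ m
  induction m with
  | zero =>
    intro B1 B2 Ψs Ψas Ψns Ψls hB1 hB2 hSF h01 hn hl
    refine ⟨fun _ => 0, fun _ => 0, fun _ => 0, ?_, ?_, ?_⟩
    · have h := UNF_zero Γ
      have e : (fun g : SL(2, ℝ) => 1 - ∏ k ∈ Finset.range 0, (1 - Ψs k g)) = fun _ => (0 : ℝ) := by
        funext g; simp
      rw [e]; exact h
    · intro g; simp
    · intro g; simp
  | succ m ih =>
    intro B1 B2 Ψs Ψas Ψns Ψls hB1 hB2 hSF h01 hn hl
    obtain ⟨Fa, Fn, Fl, hF, hFn, hFl⟩ := ih B1 B2 Ψs Ψas Ψns Ψls hB1 hB2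
      (fun k hk => hSF k (Nat.lt_succ_of_lt hk)) (fun k hk => h01 k (Nat.lt_succ_of_lt hk))
      (fun k hk => hn k (Nat.lt_succ_of_lt hk)) (fun k hk => hl k (Nat.lt_succ_of_lt hk))
    have hF1 := (hSFP Γ _ _ _ _ hF).2.1
    have hG1 := (hSFP Γ _ _ _ _ (hSF m (Nat.lt_succ_self m))).2.1
    have hP := (hSFP Γ _ _ _ _ hF1).1 _ _ _ _ hG1
    have hR := (hSFP Γ _ _ _ _ hP).2.1
    have hp : ∀ g, 0 ≤ (1 - (1 - ∏ k ∈ Finset.range m, (1 - Ψs k g))) ∧ (1 - (1 - ∏ k ∈ Finset.range m, (1 - Ψs k g))) ≤ 1 := by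
      intro g
      have e : (1 - (1 - ∏ k ∈ Finset.range m, (1 - Ψs k g))) = ∏ k ∈ Finset.range m, (1 - Ψs k g) := by ring
      rw [e]
      refine ⟨Finset.prod_nonneg ?_, Finset.prod_le_one ?_ ?_⟩
      · intro k hk
        have := (h01 k (Nat.lt_succ_of_lt (Finset.mem_range.1 hk)) g).2
        linarith
      · intro k hk
        have := (h01 k (Nat.lt_succ_of_lt (Finset.mem_range.1 hk)) g).2
        linarith
      · intro k hk
        have := (h01 k (Nat.lt_succ_of_lt (Finset.mem_range.1 hk)) g).1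
        linarith
    have hg : ∀ g, 0 ≤ 1 - Ψs m g ∧ 1 - Ψs m g ≤ 1 := by
      intro g
      have := h01 m (Nat.lt_succ_self m) g
      constructor <;> linarith [this.1, this.2]
    have e : (fun g : SL(2, ℝ) => 1 - ∏ k ∈ Finset.range (m + 1), (1 - Ψs k g)) =
          fun g => 1 - (1 - (1 - ∏ k ∈ Finset.range m, (1 - Ψs k g))) * (1 - Ψs m g) := by
      funext g
      rw [Finset.prod_range_succ]
      ring
    rw [e]
    refine ⟨_, _, _, hR, ?_, ?_⟩
    · intro g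
      have h := UNF_bd (hp g) (hg g) (hFn g) (hn m (Nat.lt_succ_self m) g)
      refine h.trans (le_of_eq ?_)
      push_cast
      ring
    · intro g
      have h := UNF_bd (hp g) (hg g) (hFl g) (hl m (Nat.lt_succ_self m) g)
      refine h.trans (le_of_eq ?_)
      push_cast
      ring

end Pool.Agent.FS
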